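import Mathlib

/-! MP_05cdf2_gt, stream M (helper6): the cyclic order on the free group of rank `2g`.

`F g` is the free group on `a_i = Sum.inl i`, `b_i = Sum.inr i` (`i : Fin g`), the fundamental group of the
surface of genus `g` with one boundary component, with base point (a hair) on the boundary.
`zeta g = ∏ [a_i, b_i]` is the boundary loop.
The half edges at a vertex of the Cayley tree are ranked counterclockwise from the hair:
`a_0 < b_0⁻¹ < a_0⁻¹ < b_0 < a_1 < ...`, and the hair has rank `N = 4g`.
`key x` is the list of the positions (counted counterclockwise from the half edge by which one arrives) of the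
letters of the reduced word of `x` followed by the hair. The lexicographic order of the keys is the order in
which one meets the lifts of the base point going counterclockwise around the boundary circle of the universal
cover, starting from the base point `1`. `Cyc` is the cyclic order of a linear order. `Cr a b c d`: the chords
`{a, b}` and `{c, d}` cross. `U a b`: no lift of `a` crosses a lift of `b` (`U a a`: `a` is simple).
-/

set_option autoImplicit false

namespace TorM

open scoped commutatorElement

/-- a sublist of consecutive letters of a reduced word is reduced -/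
theorem redSub {α : Type*} {L₁ L₂ : List (α × Bool)} (h : FreeGroup.IsReduced L₂) (h2 : L₁ <:+: L₂) :
    FreeGroup.IsReduced L₁ := by
  obtain ⟨a, c, rfl⟩ := h2
  unfold FreeGroup.IsReduced at h ⊢
  exact (List.isChain_append.1 (List.isChain_append.1 h).1).2.1

/-- generators -/
abbrev Gen (g : ℕ) : Type := Fin g ⊕ Fin g
/-- free group of rank `2g` -/
abbrev F (g : ℕ) : Type := FreeGroup (Gen g)
/-- letters -/
abbrev Ltr (g : ℕ) : Type := Gen g × Bool

/-- inverse letter -/
def inv {g : ℕ} (l : Ltr g) : Ltr g := (l.1, !l.2)

/-- rank of a letter, counterclockwise from the hair -/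
def rk {g : ℕ} : Ltr g → ℕ
  | (Sum.inl i, true) => 4 * (i : ℕ)
  | (Sum.inr i, false) => 4 * (i : ℕ) + 1
  | (Sum.inl i, false) => 4 * (i : ℕ) + 2
  | (Sum.inr i, true) => 4 * (i : ℕ) + 3

/-- number of steps counterclockwise from `c` to `i` on a circle with `N + 1` points `0, ..., N` -/
def pos (N c i : ℕ) : ℕ := if c ≤ i then i - c else i + (N + 1) - c

/-- key of a word, arriving by the half edge of rank `c` -/
def keyAux {g : ℕ} : ℕ → List (Ltr g) → List ℕ
  | c, [] => [pos (4 * g) c (4 * g)]
  | c, l :: t => pos (4 * g) c (rk l) :: keyAux (rk (inv l)) t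

/-- key of an element -/
def key {g : ℕ} (x : F g) : List ℕ := keyAux (4 * g) x.toWord

@[simp] theorem inv_inv {g : ℕ} (l : Ltr g) : inv (inv l) = l := by
  simp [inv]

theorem rk_lt {g : ℕ} (l : Ltr g) : rk l < 4 * g := by
  obtain ⟨i | i, b⟩ := l <;> cases b <;> have := i.isLt <;> simp only [rk] <;> omega

theorem rk_injective {g : ℕ} : Function.Injective (rk (g := g)) := by
  rintro ⟨i | i, b⟩ ⟨j | j, c⟩ h <;> cases b <;> cases c <;> simp only [rk] at h <;>
    first
    | omega
    | (have h2 : i = j := Fin.ext (by omega)
       rw [h2])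

theorem rk_inv_ne {g : ℕ} (l : Ltr g) : rk (inv l) ≠ rk l := by
  intro h
  have h1 := rk_injective h
  have h2 := congrArg Prod.snd h1
  simp [inv] at h2

theorem pos_inj {N c i j : ℕ} (hi : i ≤ N) (hj : j ≤ N) (h : pos N c i = pos N c j) (hc : c ≤ N) :
    i = j := by
  unfold pos at h
  split_ifs at h <;> omega

theorem rk_inv_le {g : ℕ} (l : Ltr g) : rk (inv l) ≤ 4 * g := (rk_lt _).le

theorem keyAux_injective {g : ℕ} : ∀ (u v : List (Ltr g)) (c : ℕ), c ≤ 4 * g →
    keyAux c u = keyAux c v → u = v
  | [], [], _, _, _ => rfl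
  | [], l :: t, c, hc, h => by
    simp only [keyAux, List.cons.injEq] at h
    have h1 := pos_inj le_rfl (rk_lt l).le h.1 hc
    have h2 := rk_lt l
    omega
  | l :: t, [], c, hc, h => by
    simp only [keyAux, List.cons.injEq] at h
    have h1 := pos_inj (rk_lt l).le le_rfl h.1 hc
    have h2 := rk_lt l
    omega
  | l :: t, m :: s, c, hc, h => by
    simp only [keyAux, List.cons.injEq] at h
    have h1 := rk_injective (pos_inj (rk_lt l).le (rk_lt m).le h.1 hc)
    subst h1
    rw [keyAux_injective t s _ (rk_inv_le l) h.2]

theorem key_injective {g : ℕ} : Function.Injective (key (g := g)) := by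
  intro x y h
  exact FreeGroup.toWord_injective (keyAux_injective _ _ _ le_rfl h)

/-- the counterclockwise order on the lifts of the base point, starting from `1` -/
noncomputable instance instLinearOrderF (g : ℕ) : LinearOrder (F g) :=
  LinearOrder.lift' key key_injective

theorem lt_iff {g : ℕ} (x y : F g) : x < y ↔ key x < key y := Iff.rfl

theorem le_iff {g : ℕ} (x y : F g) : x ≤ y ↔ key x ≤ key y := Iff.rfl

/-- the boundary loop -/
def zeta (g : ℕ) : F g :=
  ((List.finRange g).map fun i => ⁅FreeGroup.of (Sum.inl i : Gen g), FreeGroup.of (Sum.inr i)⁆).prod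

/-- cyclic order of a linear order: `x, y, z` are distinct and in counterclockwise order -/
def Cyc {α : Type} [LinearOrder α] (x y z : α) : Prop :=
  (x < y ∧ y < z) ∨ (y < z ∧ z < x) ∨ (z < x ∧ x < y)

/-- the chords `{a, b}` and `{c, d}` cross -/
def Cr {α : Type} [LinearOrder α] (a b c d : α) : Prop :=
  (Cyc a c b ∧ Cyc b d a) ∨ (Cyc a d b ∧ Cyc b c a)

/-- no lift of `a` crosses a lift of `b` -/
def U {g : ℕ} (a b : F g) : Prop := ∀ x : F g, ¬ Cr 1 a x (x * b)

/-- a system: pairwise unlinked simple elements -/
def Sys {g : ℕ} (X : Set (F g)) : Prop := ∀ a ∈ X, ∀ b ∈ X, U a b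

/-- the chord `{p, q}` is a lift of an element of `X` -/
def Ch {g : ℕ} (X : Set (F g)) (p q : F g) : Prop := p⁻¹ * q ∈ X ∨ q⁻¹ * p ∈ X

/-- the group: automorphisms of `F g` which fix the boundary loop -/
def Gam (g : ℕ) : Subgroup (MulAut (F g)) where
  carrier := {φ | φ (zeta g) = zeta g}
  one_mem' := rfl
  mul_mem' := fun {a b} ha hb => by
    show (a * b) (zeta g) = zeta g
    rw [MulAut.mul_apply, hb, ha]
  inv_mem' := fun {a} ha => by
    show a⁻¹ (zeta g) = zeta g
    have h : a (zeta g) = zeta g := ha
    conv_lhs => rw [← h]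
    exact MulAut.inv_apply_self _ a (zeta g)

section
variable {α : Type} [LinearOrder α]

theorem Cyc.rot {x y z : α} (h : Cyc x y z) : Cyc y z x := by
  unfold Cyc at *
  tauto

end

end TorM
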