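import Pool.Agent.Lib.MP_05cdf2_gt.M.Exit

/-! MP_05cdf2_gt, stream M, job Aut: every automorphism fixing `ζ` preserves the order.

Let `φ ζ = ζ` and `x < y`. If `x = 1` then `φ x = 1 < φ y`. Let `1 < x`, `D = {z | z ≤ x}`, `D' = φ '' D =
{z | φ.symm z ≤ x}`. For all `h` the set `{z | ¬ (z ∈ D' ↔ z h ∈ D')}` is the image under `φ` of
`{z | ¬ (z ≤ x ↔ z (φ.symm h) ≤ x)}`, which is finite (`sep_finite`). `1 ∈ D'`, `φ y ∉ D'`. By `exit1` there is
`z < φ y`, `z ∈ D'`, `z ζ ∉ D'`. With `z' = φ.symm z` this says `z' ≤ x`, `z' ζ > x` (`φ.symm ζ = ζ`), so `z' = x`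
(`z' < x` would give `z' ζ ≤ x` by `succ_le`). Hence `z = φ x`, and `φ x < φ y`. So `φ` is strictly monotone
(`StrictMono.lt_iff_lt`). The other statements are immediate (unfold `Cyc, Cr, U`; for `U` use surjectivity).
-/

set_option autoImplicit false

namespace TorM

variable {g : ℕ}

theorem aut_lt_aux (φ : F g ≃* F g) (h : φ (zeta g) = zeta g) {x y : F g} (hxy : x < y) :
    φ x < φ y := by
  have hζ : φ.symm (zeta g) = zeta g := by
    rw [MulEquiv.symm_apply_eq]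
    exact h.symm
  let D : Set (F g) := {z | φ.symm z ≤ x}
  have hD : ∀ k : F g, {z | ¬ (z ∈ D ↔ z * k ∈ D)}.Finite := by
    intro k
    have h1 := (sep_finite x (φ.symm k)).image φ
    refine h1.subset ?_
    intro z hz
    refine ⟨φ.symm z, ?_, φ.apply_symm_apply z⟩
    simp only [D, Set.mem_ofPred_eq, map_mul] at hz ⊢
    exact hz
  have h1 : (1 : F g) ∈ D := by
    show φ.symm 1 ≤ x
    rw [map_one]
    exact one_le x
  have hb : φ y ∉ D := by
    show ¬ φ.symm (φ y) ≤ x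
    rw [φ.symm_apply_apply]
    exact not_le.mpr hxy
  obtain ⟨z, hz1, hz2, hz3⟩ := exit1 D hD h1 hb
  have hz2' : φ.symm z ≤ x := hz2
  have hz3' : ¬ φ.symm (z * zeta g) ≤ x := hz3
  rw [map_mul, hζ] at hz3'
  have hz4 : φ.symm z = x := by
    rcases lt_or_eq_of_le hz2' with h2 | h2
    · exact absurd (succ_le h2).2 hz3'
    · exact h2
  have hz5 : z = φ x := by
    rw [← hz4, φ.apply_symm_apply]
  rw [← hz5]
  exact hz1

theorem aut_lt (φ : F g ≃* F g) (h : φ (zeta g) = zeta g) {x y : F g} : φ x < φ y ↔ x < y := by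
  have hm : StrictMono φ := fun _ _ hxy => aut_lt_aux φ h hxy
  exact hm.lt_iff_lt

theorem aut_le (φ : F g ≃* F g) (h : φ (zeta g) = zeta g) {x y : F g} : φ x ≤ φ y ↔ x ≤ y := by
  rw [← not_lt, ← not_lt, aut_lt φ h]

theorem aut_cyc (φ : F g ≃* F g) (h : φ (zeta g) = zeta g) {x y z : F g} :
    Cyc (φ x) (φ y) (φ z) ↔ Cyc x y z := by
  unfold Cyc
  simp only [aut_lt φ h]

theorem aut_cr (φ : F g ≃* F g) (h : φ (zeta g) = zeta g) {p q r s : F g} :
    Cr (φ p) (φ q) (φ r) (φ s) ↔ Cr p q r s := by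
  unfold Cr
  simp only [aut_cyc φ h]

theorem aut_U (φ : F g ≃* F g) (h : φ (zeta g) = zeta g) {a b : F g} : U (φ a) (φ b) ↔ U a b := by
  constructor
  · intro h1 x hc
    refine h1 (φ x) ?_
    have h2 := (aut_cr φ h).mpr hc
    rw [map_one, map_mul] at h2
    exact h2
  · intro h1 x hc
    refine h1 (φ.symm x) ?_
    rw [← aut_cr φ h, map_one, map_mul, φ.apply_symm_apply]
    exact hc

theorem aut_Sys (φ : F g ≃* F g) (h : φ (zeta g) = zeta g) {X : Set (F g)} :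
    Sys (φ '' X) ↔ Sys X := by
  constructor
  · intro h1 a ha b hb
    exact (aut_U φ h).mp (h1 _ (Set.mem_image_of_mem φ ha) _ (Set.mem_image_of_mem φ hb))
  · rintro h1 _ ⟨a, ha, rfl⟩ _ ⟨b, hb, rfl⟩
    exact (aut_U φ h).mpr (h1 a ha b hb)

end TorM
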