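import Pool.Agent.Lib.MP_05cdf2_gt.M.Fin

/-! MP_05cdf2_gt, stream M, job Std: the letters are pairwise unlinked.

`U_letter`: let `l, m` be letters (as elements of `F`), `x ∈ F` and suppose `Cr 1 l x (x m)`, in particular
`x, x m ∉ {1, l}`. One of the words of `x` and `x m` is the other one followed by one letter. Call `u` the
shorter one and `v` the longer one (`Cr` is symmetric in `x, x m`): the word of `v` is (word of `u`) ++ [letter], `u ≠ 1`,
`u ≠ l`. `l` does not separate `u` and `v`: apply `lt_iff_of_prefix` with `p` = word of `u`, which is not a prefix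
of the word `[l]` of `l` (`u ≠ 1`, `u ≠ l`): `u < l ↔ v < l`. But `Cr 1 l u v` says that exactly one of `u, v` is in
the interval `(1, l)` (`1` is the minimum, `one_le`).

`B0 g` = the standard generators.
-/

set_option autoImplicit false

namespace TorM

variable {g : ℕ}

theorem std_aux {l : Ltr g} {u v : F g} {p : List (Ltr g)} (hu : p <+: u.toWord)
    (hv : p <+: v.toWord) (hp : ¬ p <+: (FreeGroup.mk [l] : F g).toWord) :
    ¬ Cr 1 (FreeGroup.mk [l] : F g) u v := by
  have h1 := lt_iff_of_prefix hu hv hp
  have h2 := one_le u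
  have h3 := one_le v
  have h4 := one_le (FreeGroup.mk [l] : F g)
  unfold Cr Cyc
  grind

theorem std_toWord (l : Ltr g) : (FreeGroup.mk [l] : F g).toWord = [l] := by
  rw [FreeGroup.toWord_mk]
  rfl

theorem std_mul (x : F g) (m : Ltr g) :
    (x * FreeGroup.mk [m]).toWord = x.toWord ++ [m] ∨
      x.toWord = (x * FreeGroup.mk [m]).toWord ++ [inv m] := by
  rcases fin_letter x m with h | h
  · exact Or.inl h
  · exact Or.inr h

theorem U_letter (l m : Ltr g) : U (FreeGroup.mk [l] : F g) (FreeGroup.mk [m]) := by
  intro x hc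
  have key : ∀ u v : F g, (∃ n, v.toWord = u.toWord ++ [n]) → ¬ Cr 1 (FreeGroup.mk [l] : F g) u v := by
    rintro u v ⟨n, hn⟩ h
    have hu1 : u ≠ 1 := by
      rintro rfl
      unfold Cr Cyc at h
      grind
    have hul : u ≠ FreeGroup.mk [l] := by
      rintro rfl
      unfold Cr Cyc at h
      grind
    refine std_aux (p := u.toWord) (List.prefix_refl _) (hn ▸ List.prefix_append _ _) ?_ h
    rw [std_toWord]
    intro hp
    rw [List.prefix_cons_iff] at hp
    rcases hp with hp | ⟨t, ht, ht2⟩
    · exact hu1 (FreeGroup.toWord_eq_nil_iff.mp hp)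
    · rw [List.prefix_nil] at ht2
      subst ht2
      apply hul
      apply FreeGroup.toWord_injective
      rw [ht, std_toWord]
  rcases std_mul x m with h | h
  · exact key _ _ ⟨m, h⟩ hc
  · refine key _ _ ⟨inv m, h⟩ ?_
    unfold Cr Cyc at *
    grind

/-- the standard generators -/
def B0 (g : ℕ) : Finset (F g) := Finset.univ.image fun i : Gen g => FreeGroup.of i

theorem sys_B0 : Sys (B0 g : Set (F g)) := by
  intro a ha b hb
  simp only [B0, Finset.coe_image, Finset.coe_univ, Set.image_univ, Set.mem_range] at ha hb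
  obtain ⟨i, rfl⟩ := ha
  obtain ⟨j, rfl⟩ := hb
  exact U_letter (i, true) (j, true)

theorem closure_B0 : Subgroup.closure (B0 g : Set (F g)) = ⊤ := by
  simp only [B0, Finset.coe_image, Finset.coe_univ, Set.image_univ]
  exact FreeGroup.closure_range_of (Gen g)

end TorM
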