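import Pool.Agent.Lib.MP_05cdf2_gt.M.Rot

/-! MP_05cdf2_gt, stream M, job Fin: only finitely many lifts cross a given chord.

`ball_finite`: `toWord` is injective and there are finitely many words of length `≤ n` over a finite alphabet
(`List.finite_length_le`).
`prefix_mul`: multiplying by `h` on the right changes at most the last `|h|` letters: the first `|x| - |h|` letters of
`x` are a prefix of the word of `x h`. Induction on the word of `h` (multiplying by one letter on the right either
appends it or deletes the last letter).
`sep_finite`: if `|x| > |v| + |h|` let `p` be the first `|v| + 1` letters of `x`; `p` is a prefix of the words of `x` and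
of `x h`, so `x ≤ v ↔ x h ≤ v` by `le_iff_of_take`. So the set is contained in a ball.
`cr_finite`: translate by `a⁻¹` (`cr_mul`): `Cr 1 v y (y h)` with `v = a⁻¹ b`, `y = a⁻¹ x` implies that exactly one of
`y, y h` is `≤ v` (both are different from `1` and `v`). So `a⁻¹ x` is in the finite set `sep_finite v h`.
-/

set_option autoImplicit false

namespace TorM

variable {g : ℕ}

theorem fin_letter (x : F g) (l : Ltr g) :
    (x * FreeGroup.mk [l]).toWord = x.toWord ++ [l] ∨
      x.toWord = (x * FreeGroup.mk [l]).toWord ++ [inv l] := by
  have hl : (FreeGroup.mk [l] : F g).toWord = [l] := by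
    rw [FreeGroup.toWord_mk, FreeGroup.reduce_singleton]
  have hx : FreeGroup.IsReduced x.toWord := FreeGroup.isReduced_toWord
  rcases List.eq_nil_or_concat x.toWord with h0 | ⟨w, m, hw⟩
  · left
    rw [FreeGroup.toWord_mul, h0, hl, List.nil_append, FreeGroup.reduce_singleton]
  · rw [List.concat_eq_append] at hw
    by_cases hm : m = inv l
    · right
      rw [FreeGroup.toWord_mul, hl, hw, hm]
      have hwr : FreeGroup.IsReduced w := by
        rw [hw] at hx
        exact List.IsChain.left_of_append hx
      have hstep : FreeGroup.Red.Step (w ++ (l.1, !l.2) :: (l.1, !(!l.2)) :: []) (w ++ []) :=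
        FreeGroup.Red.Step.not
      have h1 := FreeGroup.reduce.Step.eq hstep
      have h2 : w ++ [inv l] ++ [l] = w ++ (l.1, !l.2) :: (l.1, !(!l.2)) :: [] := by
        rw [List.append_assoc]
        simp [inv]
      rw [h2, h1, List.append_nil, hwr.reduce_eq]
    · left
      rw [FreeGroup.toWord_mul, hl]
      apply FreeGroup.IsReduced.reduce_eq
      rw [hw]
      rw [hw] at hx
      refine FreeGroup.IsReduced.append_overlap hx ?_ (by simp)
      show FreeGroup.IsReduced [m, l]
      rw [FreeGroup.isReduced_cons_cons]
      refine ⟨?_, FreeGroup.IsReduced.singleton⟩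
      intro h1
      by_contra h2
      apply hm
      unfold inv
      refine Prod.ext h1 ?_
      show m.2 = !l.2
      cases hm2 : m.2 <;> cases hl2 : l.2 <;> simp_all

theorem fin_pre : ∀ (L : List (Ltr g)) (x : F g),
    x.toWord.take (x.toWord.length - L.length) <+: (x * FreeGroup.mk L).toWord
  | [], x => by
    have h1 : (FreeGroup.mk [] : F g) = 1 := rfl
    rw [h1, mul_one]
    exact List.take_prefix _ _
  | l :: t, x => by
    have ih := fin_pre t (x * FreeGroup.mk [l])
    have h1 : x * FreeGroup.mk (l :: t) = x * FreeGroup.mk [l] * FreeGroup.mk t := by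
      rw [mul_assoc, FreeGroup.mul_mk]
      rfl
    rw [h1]
    refine List.IsPrefix.trans ?_ ih
    rcases fin_letter x l with h | h
    · rw [h, List.length_append, List.length_cons, List.length_cons, List.length_nil]
      rw [← List.take_append_of_le_length (l₂ := [l]) (by omega : x.toWord.length - (t.length + 1)
        ≤ x.toWord.length)]
      exact List.take_prefix_take_left (by omega)
    · rw [h, List.length_append, List.length_cons, List.length_cons, List.length_nil]
      rw [List.take_append_of_le_length (by omega)]
      exact List.take_prefix_take_left (by omega)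

theorem ball_finite (n : ℕ) : {x : F g | x.toWord.length ≤ n}.Finite :=
  (List.finite_length_le (Ltr g) n).preimage (FreeGroup.toWord_injective.injOn)

theorem prefix_mul (x h : F g) :
    x.toWord.take (x.toWord.length - h.toWord.length) <+: (x * h).toWord := by
  have h1 := fin_pre h.toWord x
  rw [FreeGroup.mk_toWord] at h1
  exact h1

theorem sep_finite (v h : F g) : {x : F g | ¬ (x ≤ v ↔ x * h ≤ v)}.Finite := by
  refine (ball_finite (g := g) (v.toWord.length + h.toWord.length)).subset ?_
  intro x hx
  by_contra hcon
  have hlen : v.toWord.length + h.toWord.length < x.toWord.length := by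
    simpa using hcon
  apply hx
  have hp2 : x.toWord.take (v.toWord.length + 1) <+: (x * h).toWord :=
    (List.take_prefix_take_left (by omega)).trans (prefix_mul x h)
  refine le_iff_of_take (List.take_prefix _ _) hp2 ?_
  rw [List.length_take]
  omega

theorem cr_finite (a b h : F g) : {x : F g | Cr a b x (x * h)}.Finite := by
  have hinj : Function.Injective (fun x : F g => a⁻¹ * x) := mul_right_injective a⁻¹
  refine ((sep_finite (a⁻¹ * b) h).preimage hinj.injOn).subset ?_
  intro x hx
  have h1 : Cr (a⁻¹ * a) (a⁻¹ * b) (a⁻¹ * x) (a⁻¹ * (x * h)) := (cr_mul _ _ _ _ _).mpr hx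
  rw [inv_mul_cancel, ← mul_assoc] at h1
  show ¬ (a⁻¹ * x ≤ a⁻¹ * b ↔ a⁻¹ * x * h ≤ a⁻¹ * b)
  generalize a⁻¹ * b = v at h1 ⊢
  generalize a⁻¹ * x = y at h1 ⊢
  generalize y * h = z at h1 ⊢
  have o1 := one_le v
  have o2 := one_le y
  have o3 := one_le z
  unfold Cr Cyc at h1
  grind

end TorM
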