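import Pool.Agent.Lib.MP_05cdf2_gt.M.Rot

/-! MP_05cdf2_gt, stream M, job Zeta: the boundary loop `ζ` is the immediate successor of `1`.

`zetaWord g` is the concatenation of the blocks `a_i, b_i, a_i⁻¹, b_i⁻¹`, `i = 0, ..., g - 1`. It is reduced, so it
is the word of `zeta g`. Every entry of `key (zeta g)` is `1`: the first letter `a_0` has rank `0` (position `1` after
the hair, `pos N N 0 = 1`), each letter has rank one more than the inverse of the previous letter (`a_i`: `4i`,
inverse of `b_{i-1}⁻¹`: `4i - 1`; `b_i`: `4i + 3`, inverse of `a_i`: `4i + 2`; `a_i⁻¹`: `4i + 2`, inverse of `b_i`: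
`4i + 1`; `b_i⁻¹`: `4i + 1`, inverse of `a_i⁻¹`: `4i`), and the hair (rank `4g`) comes one after `b_{g-1}` (rank `4g-1`).
Suggestion: for the blocks with index `≥ i` prove
`keyAux (4i - 1) (blocks from i on) = replicate (4 (g - i) + 1) 1` (for `i = 0` with `c = 4g` instead of `-1`).

`zeta_le`: for `x ≠ 1` all entries of `key x` are `≥ 1` (`pos N c i = 0` only for `i = c`; the first item is not the
hair, a later letter is not the inverse of the previous one because the word is reduced, and the hair is not a
letter). A list of numbers `≥ 1` which is lexicographically smaller than `replicate m 1` is a proper prefix of it, but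
a key is never a proper prefix of another key (`keyAux_prefix`). So `key (zeta g) ≤ key x`.

`succ_le`: for `x = 1` this is `zeta_le`, `one_lt_zeta`. For `1 < x < y`: `Cyc 1 x y`, so `Cyc (x⁻¹) 1 (x⁻¹ y)`
(`cyc_mul`), that is `1 < x⁻¹ y < x⁻¹`. By `zeta_le`, `1 < ζ ≤ x⁻¹ y`. If `ζ = x⁻¹ y` then `x ζ = y`. Otherwise
`1 < ζ < x⁻¹ y < x⁻¹`, so `Cyc x (x ζ) y` and `Cyc x y 1`, hence `x < x ζ < y` (`1` is the minimum).

`zeta_letter`: every letter occurs in `ζ` (each exactly once).
-/

set_option autoImplicit false

namespace TorM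

open scoped commutatorElement

variable {g : ℕ}

/-- the word of the boundary loop -/
def zetaWord (g : ℕ) : List (Ltr g) :=
  (List.finRange g).flatMap fun i =>
    [(Sum.inl i, true), (Sum.inr i, true), (Sum.inl i, false), (Sum.inr i, false)]

theorem zeta_chain (L : List (Fin g)) (j : Fin g) :
    FreeGroup.IsReduced (((Sum.inr j, false) : Ltr g) :: L.flatMap fun i =>
      [(Sum.inl i, true), (Sum.inr i, true), (Sum.inl i, false), (Sum.inr i, false)]) := by
  induction L generalizing j with
  | nil => simp
  | cons i L ih =>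
    have h := ih i
    rw [List.flatMap_cons]
    simp only [List.cons_append, List.nil_append, FreeGroup.isReduced_cons_cons]
    refine ⟨by simp, by simp, by simp, by simp, h⟩

theorem zeta_reduced (L : List (Fin g)) :
    FreeGroup.IsReduced (L.flatMap fun i =>
      ([(Sum.inl i, true), (Sum.inr i, true), (Sum.inl i, false), (Sum.inr i, false)] :
        List (Ltr g))) := by
  cases L with
  | nil => simp
  | cons i L =>
    have h := zeta_chain L i
    rw [List.flatMap_cons]
    simp only [List.cons_append, List.nil_append, FreeGroup.isReduced_cons_cons]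
    refine ⟨by simp, by simp, by simp, h⟩

theorem zeta_mk (L : List (Fin g)) :
    FreeGroup.mk (L.flatMap fun i =>
      ([(Sum.inl i, true), (Sum.inr i, true), (Sum.inl i, false), (Sum.inr i, false)] :
        List (Ltr g))) =
      (L.map fun i => ⁅FreeGroup.of (Sum.inl i : Gen g), FreeGroup.of (Sum.inr i)⁆).prod := by
  induction L with
  | nil => rfl
  | cons i L ih =>
    rw [List.flatMap_cons, ← FreeGroup.mul_mk, ih, List.map_cons, List.prod_cons]
    congr 1

theorem toWord_zeta : (zeta g).toWord = zetaWord g := by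
  unfold zeta zetaWord
  rw [← zeta_mk, FreeGroup.toWord_mk, (zeta_reduced _).reduce_eq]

theorem zeta_keyAux (k : ℕ) : ∀ (i c : ℕ), i + k = g → pos (4 * g) c (4 * i) = 1 →
    keyAux c (((List.finRange g).drop i).flatMap fun i =>
      ([(Sum.inl i, true), (Sum.inr i, true), (Sum.inl i, false), (Sum.inr i, false)] :
        List (Ltr g))) = List.replicate (4 * k + 1) 1 := by
  induction k with
  | zero =>
    intro i c hi hc
    have h1 : (List.finRange g).drop i = [] := by
      apply List.drop_of_length_le
      rw [List.length_finRange]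
      omega
    rw [h1, List.flatMap_nil]
    have h2 : i = g := by omega
    rw [h2] at hc
    simp [keyAux, hc]
  | succ k ih =>
    intro i c hi hc
    have hig : i < (List.finRange g).length := by
      rw [List.length_finRange]
      omega
    rw [List.drop_eq_getElem_cons hig, List.flatMap_cons, List.getElem_finRange]
    simp only [List.cons_append, List.nil_append, keyAux]
    have e1 : rk ((Sum.inl (Fin.cast (by simp) ⟨i, hig⟩), true) : Ltr g) = 4 * i := rfl
    have e2 : rk (inv ((Sum.inl (Fin.cast (by simp) ⟨i, hig⟩), true) : Ltr g)) = 4 * i + 2 := rfl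
    have e3 : rk ((Sum.inr (Fin.cast (by simp) ⟨i, hig⟩), true) : Ltr g) = 4 * i + 3 := rfl
    have e4 : rk (inv ((Sum.inr (Fin.cast (by simp) ⟨i, hig⟩), true) : Ltr g)) = 4 * i + 1 := rfl
    have e5 : rk ((Sum.inl (Fin.cast (by simp) ⟨i, hig⟩), false) : Ltr g) = 4 * i + 2 := rfl
    have e6 : rk (inv ((Sum.inl (Fin.cast (by simp) ⟨i, hig⟩), false) : Ltr g)) = 4 * i := rfl
    have e7 : rk ((Sum.inr (Fin.cast (by simp) ⟨i, hig⟩), false) : Ltr g) = 4 * i + 1 := rfl
    have e8 : rk (inv ((Sum.inr (Fin.cast (by simp) ⟨i, hig⟩), false) : Ltr g)) = 4 * i + 3 := rfl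
    have h1 : pos (4 * g) (4 * i + 3) (4 * (i + 1)) = 1 := by
      unfold pos
      split_ifs <;> omega
    have h2 := ih (i + 1) (4 * i + 3) (by omega) h1
    have p1 : pos (4 * g) (4 * i + 2) (4 * i + 3) = 1 := by
      unfold pos
      split_ifs <;> omega
    have p2 : pos (4 * g) (4 * i + 1) (4 * i + 2) = 1 := by
      unfold pos
      split_ifs <;> omega
    have p3 : pos (4 * g) (4 * i) (4 * i + 1) = 1 := by
      unfold pos
      split_ifs <;> omega
    rw [e1, e2, e3, e4, e5, e6, e7, e8, hc, p1, p2, p3, h2,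
      show 4 * (k + 1) + 1 = (4 * k + 1) + 1 + 1 + 1 + 1 by ring]
    rfl

theorem key_zeta (hg : 0 < g) : key (zeta g) = List.replicate (4 * g + 1) 1 := by
  unfold key
  rw [toWord_zeta]
  have h := zeta_keyAux (g := g) g 0 (4 * g) (by omega) (by unfold pos; split_ifs <;> omega)
  rwa [List.drop_zero] at h

theorem zeta_pos_of_ne {x : F g} (hx : x ≠ 1) : 0 < g := by
  rcases Nat.eq_zero_or_pos g with h | h
  · subst h
    exfalso
    apply hx
    have : x.toWord = [] := by
      rcases h1 : x.toWord with _ | ⟨l, t⟩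
      · rfl
      · obtain ⟨i | i, b⟩ := l
        · exact i.elim0
        · exact i.elim0
    exact FreeGroup.toWord_eq_nil_iff.1 this
  · exact h

theorem zeta_entries : ∀ (w : List (Ltr g)) (c : ℕ), c ≤ 4 * g → FreeGroup.IsReduced w →
    (∀ l ∈ w.head?, rk l ≠ c) → (w = [] → c ≠ 4 * g) → ∀ e ∈ keyAux c w, 1 ≤ e
  | [], c, hc, _, _, h, e, he => by
    simp only [keyAux, List.mem_singleton] at he
    have := h rfl
    rw [he]
    unfold pos
    split_ifs <;> omega
  | l :: t, c, hc, hw, h1, _, e, he => by
    simp only [keyAux, List.mem_cons] at he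
    rcases he with he | he
    · have h2 := h1 l (by simp)
      have h3 := rk_lt l
      rw [he]
      unfold pos
      split_ifs <;> omega
    · have hw' : FreeGroup.IsReduced t := by
        cases t with
        | nil => exact List.isChain_nil
        | cons m' t' => exact (FreeGroup.isReduced_cons_cons.1 hw).2
      refine zeta_entries t _ (rk_inv_le l) hw' ?_ ?_ e he
      · intro m hm hml
        have h2 := rk_injective hml
        cases t with
        | nil => simp at hm
        | cons m' t' =>
          simp only [List.head?_cons, Option.mem_def, Option.some.injEq] at hm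
          subst hm
          rw [FreeGroup.isReduced_cons_cons] at hw
          have h3 := hw.1 (by rw [h2]; rfl)
          rw [h2] at h3
          simp [inv] at h3
      · intro _
        have := rk_lt (inv l)
        omega

theorem zeta_prefix : ∀ (K : List ℕ) (m : ℕ), (∀ e ∈ K, 1 ≤ e) → K < List.replicate m 1 →
    K <+: List.replicate m 1
  | [], _, _, _ => List.nil_prefix
  | k :: K, 0, _, h => by
    simp at h
  | k :: K, m + 1, h1, h => by
    rw [List.replicate_succ] at h ⊢
    rw [List.cons_lt_cons_iff] at h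
    have hk := h1 k (by simp)
    rcases h with h | ⟨h, h2⟩
    · omega
    · rw [h, List.prefix_cons_inj]
      exact zeta_prefix K m (fun e he => h1 e (by simp [he])) h2

theorem zeta_le {x : F g} (hx : x ≠ 1) : zeta g ≤ x := by
  have hg := zeta_pos_of_ne hx
  by_contra hlt
  rw [not_le, lt_iff, key_zeta hg] at hlt
  have hw : x.toWord ≠ [] := fun h => hx (FreeGroup.toWord_eq_nil_iff.1 h)
  have h1 : ∀ e ∈ key x, 1 ≤ e := by
    refine zeta_entries x.toWord (4 * g) le_rfl FreeGroup.isReduced_toWord ?_ (fun h => absurd h hw)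
    intro l _ hl
    have := rk_lt l
    omega
  have h2 := zeta_prefix _ _ h1 hlt
  rw [← key_zeta hg] at h2
  have h3 := keyAux_prefix (g := g) le_rfl h2
  have h4 : x = zeta g := FreeGroup.toWord_injective h3
  rw [← key_zeta hg, h4] at hlt
  exact lt_irrefl _ hlt

theorem zeta_ne_one (hg : 0 < g) : zeta g ≠ 1 := by
  intro h
  have h1 := key_zeta hg
  rw [h, key_one, List.replicate_succ] at h1
  simp at h1

theorem one_lt_zeta {x : F g} (hx : x ≠ 1) : 1 < zeta g :=
  one_lt (zeta_ne_one (zeta_pos_of_ne hx))

/-- `x ζ` is the immediate successor of `x` -/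
theorem succ_le {x y : F g} (h : x < y) : x < x * zeta g ∧ x * zeta g ≤ y := by
  have hy1 : y ≠ 1 := by
    rintro rfl
    exact absurd (one_le x) (not_le.2 h)
  have hz := one_lt_zeta hy1
  by_cases hx : x = 1
  · subst hx
    rw [one_mul]
    exact ⟨hz, zeta_le hy1⟩
  · have h1 : 1 < x := one_lt hx
    have h2 : Cyc (x⁻¹ * 1) (x⁻¹ * x) (x⁻¹ * y) := (cyc_mul x⁻¹ 1 x y).2 (Or.inl ⟨h1, h⟩)
    rw [inv_mul_cancel, mul_one] at h2
    have h3 : ¬ x⁻¹ < 1 := not_lt.2 (one_le _)
    have h4 : 1 < x⁻¹ * y := by
      rcases h2 with h2 | h2 | h2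
      · exact absurd h2.1 h3
      · exact h2.1
      · exact absurd h2.2 h3
    have h5 := zeta_le h4.ne'
    rcases h5.eq_or_lt with h6 | h6
    · have h7 : x * zeta g = y := by
        rw [h6, mul_inv_cancel_left]
      rw [h7]
      exact ⟨h, le_rfl⟩
    · have h7 : Cyc (x * 1) (x * zeta g) (x * (x⁻¹ * y)) :=
        (cyc_mul x 1 (zeta g) (x⁻¹ * y)).2 (Or.inl ⟨hz, h6⟩)
      rw [mul_one, mul_inv_cancel_left] at h7
      rcases h7 with h7 | h7 | h7
      · exact ⟨h7.1, h7.2.le⟩
      · exact absurd h7.2 (not_lt.2 h.le)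
      · exact absurd h7.1 (not_lt.2 h.le)

theorem zeta_letter (l : Ltr g) : ∃ α β : List (Ltr g), (zeta g).toWord = α ++ l :: β := by
  have h : l ∈ (zeta g).toWord := by
    rw [toWord_zeta]
    unfold zetaWord
    rw [List.mem_flatMap]
    obtain ⟨i | i, b⟩ := l
    · exact ⟨i, List.mem_finRange i, by cases b <;> simp⟩
    · exact ⟨i, List.mem_finRange i, by cases b <;> simp⟩
  exact List.append_of_mem h

/-- the exponent sums of `ζ` vanish: `ζ` is killed by every map to a commutative group -/
theorem map_zeta {A : Type} [CommGroup A] (f : F g →* A) : f (zeta g) = 1 := by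
  unfold zeta
  rw [map_list_prod, List.map_map]
  apply List.prod_eq_one
  intro a ha
  obtain ⟨i, _, rfl⟩ := List.mem_map.1 ha
  rw [Function.comp_apply, map_commutatorElement, commutatorElement_eq_one_iff_mul_comm, mul_comm]

end TorM
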