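import Pool.Agent.Lib.MP_05cdf2_gt.M.ExitA

/-! MP_05cdf2_gt, stream M, job Exit: a set `A ⊆ F` with `A xor A h` finite for all `h` has an exit
(`x ∈ A`, `x ζ ∉ A`) between every element of `A` and every element outside of `A`.

`exit1`: suppose there is no exit below `b`: (*) `x < b`, `x ∈ A` imply `x ζ ∈ A`. Let `n` be as in `mono_cyl`,
`n ≥ 1`, and `T = {x ∈ A | |x| ≤ n, x < b}`, a finite set containing `1`; let `p = max T`. In both cases below we
find `M ∈ A`, `M < b`, with `M ζ > p` and `M ζ ∈ A`, `M ζ < b` (by `succ_le`: `M < M ζ ≤ b`, and `M ζ ≠ b` because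
`b ∉ A`), and `¬ (word of p) <+: (word of M ζ)` or `|p| < n`:
- `|p| < n`: `M = p`.
- `|p| = n`: `M` from `cyl_exit p` (`p ≠ 1` as `n ≥ 1`). `M ∈ A` by `mono_cyl`; `M < b`: `b` is not in the cylinder of
  `p` (`b ∉ A`, `mono_cyl`), so `M < b ↔ p < b` (`lt_iff_of_prefix`); `p < M ζ ↔ M < M ζ` because `M ζ` is not in the
  cylinder of `p`.
Now let `q = M ζ` if `|M ζ| ≤ n` and otherwise `q` = the element whose word is the first `n` letters of `M ζ`. Then
`q ∈ A` (`mono_cyl`), `q < b` (`b` is not in the cylinder of `q`), `q > p` (`p` is not in the cylinder of `q`: if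
`|p| < n` by length; if `|p| = n` it would be `p = q`, but `M ζ` is not in the cylinder of `p`; so
`q > p ↔ M ζ > p`), `|q| ≤ n`. So `q ∈ T`, `q > p`, a contradiction.
-/

set_option autoImplicit false

namespace TorM

variable {g : ℕ}

/-- the element whose word is the first `n` letters of the word of `x` -/
theorem exit_take (x : F g) (n : ℕ) :
    (FreeGroup.mk (x.toWord.take n)).toWord = x.toWord.take n := by
  rw [FreeGroup.toWord_mk]
  exact (redSub FreeGroup.isReduced_toWord (List.take_prefix n x.toWord).isInfix).reduce_eq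

theorem exit1 (A : Set (F g)) (hA : ∀ h : F g, {x | ¬ (x ∈ A ↔ x * h ∈ A)}.Finite)
    (h1 : (1 : F g) ∈ A) {b : F g} (hb : b ∉ A) : ∃ x, x < b ∧ x ∈ A ∧ x * zeta g ∉ A := by
  by_contra hcon
  push Not at hcon
  obtain ⟨n, hn1, hn⟩ := mono_cyl A hA
  have hb1 : b ≠ 1 := by
    intro h
    rw [h] at hb
    exact hb h1
  have hfin : {x : F g | x ∈ A ∧ x.toWord.length ≤ n ∧ x < b}.Finite :=
    (ball_finite n).subset fun x hx => hx.2.1
  have hne : {x : F g | x ∈ A ∧ x.toWord.length ≤ n ∧ x < b}.Nonempty :=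
    ⟨1, h1, by simp, one_lt hb1⟩
  obtain ⟨p, hpT, hpmax⟩ : ∃ p ∈ {x : F g | x ∈ A ∧ x.toWord.length ≤ n ∧ x < b},
      ∀ x ∈ {x : F g | x ∈ A ∧ x.toWord.length ≤ n ∧ x < b}, x ≤ p := by
    obtain ⟨p, hp⟩ := hfin.exists_maximal hne
    exact ⟨p, hp.1, fun x hx => (le_total x p).elim id fun h => hp.2 hx h⟩
  obtain ⟨hpA, hplen, hpb⟩ := hpT
  -- the element `M`
  obtain ⟨M, hMA, hMb, hpM, hM⟩ : ∃ M : F g, M ∈ A ∧ M < b ∧ p < M * zeta g ∧
      (p.toWord.length < n ∨ ¬ p.toWord <+: (M * zeta g).toWord) := by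
    rcases Nat.lt_or_ge p.toWord.length n with hlt | hge
    · exact ⟨p, hpA, hpb, (succ_le hpb).1, Or.inl hlt⟩
    · have hp1 : p ≠ 1 := by
        intro h
        rw [h, FreeGroup.toWord_one, List.length_nil] at hge
        omega
      obtain ⟨M, hM1, hM2⟩ := cyl_exit hp1
      have hMA : M ∈ A := (hn p M hge hM1).2 hpA
      have hbp : ¬ p.toWord <+: b.toWord := fun h => hb ((hn p b hge h).2 hpA)
      have hMb : M < b := (lt_iff_of_prefix hM1 (List.prefix_refl _) hbp).2 hpb
      have hMs : M < M * zeta g := (succ_le hMb).1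
      exact ⟨M, hMA, hMb, (lt_iff_of_prefix hM1 (List.prefix_refl _) hM2).1 hMs, Or.inr hM2⟩
  have hzA : M * zeta g ∈ A := hcon M hMb hMA
  have hzb : M * zeta g < b := by
    refine lt_of_le_of_ne (succ_le hMb).2 ?_
    intro h
    rw [h] at hzA
    exact hb hzA
  rcases Nat.lt_or_ge n (M * zeta g).toWord.length with hlong | hshort
  · -- the first `n` letters
    have hqw := exit_take (M * zeta g) n
    set q : F g := FreeGroup.mk ((M * zeta g).toWord.take n) with hq
    have hqlen : q.toWord.length = n := by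
      rw [hqw, List.length_take]
      omega
    have hqpre : q.toWord <+: (M * zeta g).toWord := by
      rw [hqw]
      exact List.take_prefix _ _
    have hqA : q ∈ A := (hn q _ hqlen.ge hqpre).1 hzA
    have hqb' : ¬ q.toWord <+: b.toWord := fun h => hb ((hn q b hqlen.ge h).2 hqA)
    have hqb : q < b := (lt_iff_of_prefix (List.prefix_refl _) hqpre hqb').2 hzb
    have hqp : q ≤ p := hpmax q ⟨hqA, hqlen.le, hqb⟩
    have hpq : ¬ q.toWord <+: p.toWord := by
      intro h
      have h2 : q.toWord.length ≤ p.toWord.length := h.length_le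
      have h3 : q.toWord = p.toWord := h.eq_of_length (by omega)
      rcases hM with hM | hM
      · omega
      · rw [← h3] at hM
        exact hM hqpre
    have h4 : ¬ q < p := by
      intro h
      have h5 := (lt_iff_of_prefix (List.prefix_refl _) hqpre hpq).1 h
      exact lt_asymm h5 hpM
    have h6 : q = p := le_antisymm hqp (not_lt.1 h4)
    apply hpq
    rw [h6]
  · exact absurd hpM (not_lt.2 (hpmax _ ⟨hzA, hshort, hzb⟩))

end TorM
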