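import Pool.Agent.Lib.MP_05cdf2_gt.M.Zeta
import Pool.Agent.Lib.MP_05cdf2_gt.M.Fin

/-! MP_05cdf2_gt, stream M, job ExitA: cylinders (sets of elements whose word has a given prefix).

`cyl_exit`: let `p = p' l` (last letter `l`), `ζ = α l⁻¹ β` as words (`zeta_letter (inv l)`), `M = p α⁻¹`. The word of
`M` is (word of `p`) ++ (inverse word of `α`): there is no cancellation because the last letter of `α` is not `l`
(`ζ` is reduced). And `M ζ = p' β`; its word does not start with (word of `p`) = `p' ++ [l]`: otherwise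
`p'⁻¹ (M ζ) = β` would have a word starting with `l` (if the word of `y` is `p' ++ l :: s` then the word of
`p'⁻¹ y` is `l :: s`), but the first letter of `β` is not `l` as `l⁻¹ β` is reduced.

`mono_cyl`: let `n` be larger than the lengths of all elements of the finite sets `{x | ¬(x ∈ A ↔ x l ∈ A)}`, `l` a
letter (finitely many). If `p` has length `≥ n` and `p` is a prefix of `x`, go from `p` to `x` letter by letter:
all the intermediate elements have length `≥ n`, so membership in `A` does not change.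
-/

set_option autoImplicit false

namespace TorM

variable {g : ℕ}

theorem exita_toWord_mk {L : List (Ltr g)} (h : FreeGroup.IsReduced L) :
    (FreeGroup.mk L).toWord = L := by
  rw [FreeGroup.toWord_mk]
  exact h.reduce_eq

theorem exita_invRev {L : List (Ltr g)} (h : FreeGroup.IsReduced L) :
    FreeGroup.IsReduced (FreeGroup.invRev L) := by
  apply FreeGroup.IsReduced.of_reduce_eq
  rw [FreeGroup.reduce_invRev, h.reduce_eq]

theorem exita_invRev_snoc (α : List (Ltr g)) (l : Ltr g) :
    FreeGroup.invRev (α ++ [inv l]) = [l] ++ FreeGroup.invRev α := by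
  simp [FreeGroup.invRev, inv]

theorem exita_mk_cancel (l : Ltr g) :
    (FreeGroup.mk [l] : F g) * FreeGroup.mk [inv l] = 1 := by
  have h : (FreeGroup.mk [inv l] : F g) = (FreeGroup.mk [l])⁻¹ := by
    rw [FreeGroup.inv_mk]
    rfl
  rw [h, mul_inv_cancel]

theorem exita_mul (p' α β : List (Ltr g)) (l : Ltr g) :
    (FreeGroup.mk (p' ++ [l] ++ FreeGroup.invRev α) : F g) * FreeGroup.mk (α ++ inv l :: β)
      = FreeGroup.mk p' * FreeGroup.mk β := by
  have h1 : (FreeGroup.mk (p' ++ [l] ++ FreeGroup.invRev α) : F g)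
      = FreeGroup.mk p' * FreeGroup.mk [l] * (FreeGroup.mk α)⁻¹ := by
    rw [FreeGroup.inv_mk, FreeGroup.mul_mk, FreeGroup.mul_mk]
  have h2 : (FreeGroup.mk (α ++ inv l :: β) : F g)
      = FreeGroup.mk α * (FreeGroup.mk [inv l] * FreeGroup.mk β) := by
    rw [FreeGroup.mul_mk, FreeGroup.mul_mk]
    rfl
  rw [h1, h2]
  calc (FreeGroup.mk p' * FreeGroup.mk [l] * (FreeGroup.mk α)⁻¹
        * (FreeGroup.mk α * (FreeGroup.mk [inv l] * FreeGroup.mk β)) : F g)
      = FreeGroup.mk p' * (FreeGroup.mk [l] * FreeGroup.mk [inv l]) * FreeGroup.mk β := by group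
    _ = FreeGroup.mk p' * FreeGroup.mk β := by rw [exita_mk_cancel, mul_one]

theorem exita_mid {L a b c : List (Ltr g)} (h : FreeGroup.IsReduced L) (he : a ++ b ++ c = L) :
    FreeGroup.IsReduced b := by
  rw [← he] at h
  unfold FreeGroup.IsReduced at h ⊢
  exact (List.isChain_append.1 (List.isChain_append.1 h).1).2.1

theorem cyl_exit {p : F g} (hp : p ≠ 1) :
    ∃ M : F g, p.toWord <+: M.toWord ∧ ¬ p.toWord <+: (M * zeta g).toWord := by
  have hne : p.toWord ≠ [] := by
    intro h
    exact hp (FreeGroup.toWord_eq_nil_iff.1 h)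
  obtain ⟨p', l, hpl⟩ : ∃ (p' : List (Ltr g)) (l : Ltr g), p.toWord = p' ++ [l] :=
    ⟨p.toWord.dropLast, p.toWord.getLast hne, (List.dropLast_append_getLast hne).symm⟩
  obtain ⟨α, β, hz⟩ := zeta_letter (inv l)
  have hzr : FreeGroup.IsReduced (α ++ inv l :: β) := by
    rw [← hz]
    exact FreeGroup.isReduced_toWord
  have hpr : FreeGroup.IsReduced (p' ++ [l]) := by
    rw [← hpl]
    exact FreeGroup.isReduced_toWord
  have h1 : FreeGroup.IsReduced (α ++ [inv l]) := by
    refine exita_mid (a := []) (c := β) hzr ?_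
    simp
  have h2 : FreeGroup.IsReduced ([l] ++ FreeGroup.invRev α) := by
    rw [← exita_invRev_snoc]
    exact exita_invRev h1
  have h3 : FreeGroup.IsReduced (p' ++ [l] ++ FreeGroup.invRev α) :=
    hpr.append_overlap h2 (by simp)
  have hβ : FreeGroup.IsReduced β := by
    refine exita_mid (a := α ++ [inv l]) (c := []) hzr ?_
    simp
  refine ⟨FreeGroup.mk (p' ++ [l] ++ FreeGroup.invRev α), ?_, ?_⟩
  · rw [exita_toWord_mk h3, hpl]
    exact ⟨FreeGroup.invRev α, rfl⟩
  · rintro ⟨s, hs⟩
    have hzm : zeta g = FreeGroup.mk (α ++ inv l :: β) := by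
      rw [← hz, FreeGroup.mk_toWord]
    have hM : (FreeGroup.mk (p' ++ [l] ++ FreeGroup.invRev α) : F g) * zeta g
        = FreeGroup.mk p' * FreeGroup.mk β := by
      rw [hzm, exita_mul]
    rw [hM] at hs
    have hsr : FreeGroup.IsReduced (p.toWord ++ s) := by
      rw [hs]
      exact FreeGroup.isReduced_toWord
    rw [hpl] at hs hsr
    have hls : FreeGroup.IsReduced (l :: s) := by
      refine exita_mid (a := p') (c := []) hsr ?_
      simp
    have h4 : (FreeGroup.mk p' * FreeGroup.mk β : F g) = FreeGroup.mk p' * FreeGroup.mk (l :: s) := by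
      have h5 : (FreeGroup.mk p' * FreeGroup.mk β : F g)
          = FreeGroup.mk (FreeGroup.mk p' * FreeGroup.mk β : F g).toWord :=
        (FreeGroup.mk_toWord).symm
      rw [h5, ← hs, FreeGroup.mul_mk]
      simp
    have h6 : (FreeGroup.mk β : F g) = FreeGroup.mk (l :: s) := mul_left_cancel h4
    have h7 : β = l :: s := by
      rw [← exita_toWord_mk hβ, h6, exita_toWord_mk hls]
    have h8 : FreeGroup.IsReduced (inv l :: l :: s) := by
      rw [← h7]
      refine exita_mid (a := α) (c := []) hzr ?_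
      simp
    have h9 := (FreeGroup.isReduced_cons_cons.1 h8).1 rfl
    simp [inv] at h9

theorem exita_walk (A : Set (F g)) (n : ℕ)
    (hn : ∀ (l : Ltr g) (y : F g), n ≤ y.toWord.length → (y ∈ A ↔ y * FreeGroup.mk [l] ∈ A)) :
    ∀ (s : List (Ltr g)) (p : F g), n ≤ p.toWord.length → FreeGroup.IsReduced (p.toWord ++ s) →
      ((FreeGroup.mk (p.toWord ++ s) : F g) ∈ A ↔ p ∈ A)
  | [], p, _, _ => by
    rw [List.append_nil, FreeGroup.mk_toWord]
  | l :: t, p, hp, hr => by
    have h1 : FreeGroup.IsReduced (p.toWord ++ [l]) := by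
      refine exita_mid (a := []) (c := t) hr ?_
      simp
    have h2 : p * FreeGroup.mk [l] = FreeGroup.mk (p.toWord ++ [l]) := by
      rw [← FreeGroup.mul_mk, FreeGroup.mk_toWord]
    have h3 : (p * FreeGroup.mk [l]).toWord = p.toWord ++ [l] := by
      rw [h2, exita_toWord_mk h1]
    have h4 : p.toWord ++ l :: t = (p * FreeGroup.mk [l]).toWord ++ t := by
      rw [h3]
      simp
    have h5 : n ≤ (p * FreeGroup.mk [l]).toWord.length := by
      rw [h3, List.length_append]
      omega
    rw [h4] at hr ⊢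
    rw [exita_walk A n hn t (p * FreeGroup.mk [l]) h5 hr]
    exact (hn l p hp).symm

theorem mono_cyl (A : Set (F g)) (hA : ∀ h : F g, {x | ¬ (x ∈ A ↔ x * h ∈ A)}.Finite) :
    ∃ n : ℕ, 1 ≤ n ∧ ∀ p x : F g, n ≤ p.toWord.length → p.toWord <+: x.toWord →
      (x ∈ A ↔ p ∈ A) := by
  have hS : (⋃ l : Ltr g, {x : F g | ¬ (x ∈ A ↔ x * FreeGroup.mk [l] ∈ A)}).Finite :=
    Set.finite_iUnion fun l => hA (FreeGroup.mk [l])
  obtain ⟨m, hm⟩ := (hS.image fun x : F g => x.toWord.length).bddAbove
  refine ⟨m + 1, by omega, ?_⟩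
  rintro p x hp ⟨s, hs⟩
  have hn : ∀ (l : Ltr g) (y : F g), m + 1 ≤ y.toWord.length →
      (y ∈ A ↔ y * FreeGroup.mk [l] ∈ A) := by
    intro l y hy
    by_contra hc
    have h1 : y.toWord.length ≤ m :=
      hm ⟨y, Set.mem_iUnion.2 ⟨l, hc⟩, rfl⟩
    omega
  have hr : FreeGroup.IsReduced (p.toWord ++ s) := by
    rw [hs]
    exact FreeGroup.isReduced_toWord
  have h := exita_walk A (m + 1) hn s p hp hr
  rw [hs, FreeGroup.mk_toWord] at h
  exact h

end TorM
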