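import Pool.Agent.Lib.MP_05cdf2_gt.M.Defs

/-! MP_05cdf2_gt, stream M, job Key: elementary facts on keys.

`kp c p` = entries of the key for the letters of `p` (without the hair), `lastc c p` = rank of the half edge by
which one arrives at the end of `p`. `keyAux_append` by induction on `p`.
`keyAux_prefix`: like `keyAux_injective` in `Defs` (the last entry of a key is the hair, and the hair has another
rank than every letter, so no key is a proper prefix of another key).
`one_le`: the first entry of `key x` is `pos N N (rk l) = rk l + 1 > 0` if the word of `x` starts with the letter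
`l`, and `key 1 = [0]`. The order on lists is lexicographic (`List.cons_lt_cons_iff`, `List.nil_lt_cons`, ...).
`lt_iff_of_prefix` (an element outside a cylinder does not separate elements of the cylinder): let `p` be a prefix
of the words of `x` and of `y` but not of the word of `z`. Let `q` be the longest common prefix of `p` and the word
of `z`; `q ≠ p`; after `q` the words of `x` and `y` continue with the same letter (of `p`) and `z` continues
with another letter or with the hair, so the keys of `x, y` agree in the entry number `|q|` and differ there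
from the key of `z`. Suggestion: prove by induction on `p`, for all lists `x' y' z'` and all `c ≤ 4g`:
`¬ p <+: z' → (keyAux c (p ++ x') < keyAux c z' ↔ keyAux c (p ++ y') < keyAux c z')`.
`le_iff_of_take`: if `x` and `y` have the same first `|v| + 1` letters (and both at least that many letters) then
`x ≤ v ↔ y ≤ v`: apply `lt_iff_of_prefix` to `p = x.toWord.take (|v| + 1)`, which is not a prefix of `v.toWord`.
-/

set_option autoImplicit false

namespace TorM

variable {g : ℕ}

/-- entries of the key for the letters of a word -/
def kp : ℕ → List (Ltr g) → List ℕ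
  | _, [] => []
  | c, l :: t => pos (4 * g) c (rk l) :: kp (rk (inv l)) t

/-- the half edge by which one arrives at the end of the word -/
def lastc : ℕ → List (Ltr g) → ℕ
  | c, [] => c
  | _, l :: t => lastc (rk (inv l)) t

theorem key_length_aux : ∀ (w : List (Ltr g)) (c : ℕ), (keyAux c w).length = w.length + 1
  | [], _ => rfl
  | l :: t, c => by
    show (keyAux (rk (inv l)) t).length + 1 = t.length + 1 + 1
    rw [key_length_aux t]

theorem key_lt_aux : ∀ (p x' y' z' : List (Ltr g)) (c : ℕ), c ≤ 4 * g → ¬ p <+: z' →
    (keyAux c (p ++ x') < keyAux c z' ↔ keyAux c (p ++ y') < keyAux c z')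
  | [], _, _, z', _, _, h => absurd List.nil_prefix h
  | l :: t, x', y', [], c, hc, _ => by
    show (pos (4 * g) c (rk l) :: keyAux (rk (inv l)) (t ++ x') < [pos (4 * g) c (4 * g)]) ↔
      (pos (4 * g) c (rk l) :: keyAux (rk (inv l)) (t ++ y') < [pos (4 * g) c (4 * g)])
    have h1 : pos (4 * g) c (rk l) ≠ pos (4 * g) c (4 * g) := fun h => by
      have h2 := pos_inj (rk_lt l).le le_rfl h hc
      have h3 := rk_lt l
      omega
    rw [List.cons_lt_cons_iff, List.cons_lt_cons_iff, or_iff_left fun h => h1 h.1,
      or_iff_left fun h => h1 h.1]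
  | l :: t, x', y', m :: s, c, hc, h => by
    show (pos (4 * g) c (rk l) :: keyAux (rk (inv l)) (t ++ x') <
        pos (4 * g) c (rk m) :: keyAux (rk (inv m)) s) ↔
      (pos (4 * g) c (rk l) :: keyAux (rk (inv l)) (t ++ y') <
        pos (4 * g) c (rk m) :: keyAux (rk (inv m)) s)
    rw [List.cons_lt_cons_iff, List.cons_lt_cons_iff]
    by_cases hlm : l = m
    · subst hlm
      have h2 : ¬ t <+: s := fun h2 => h (List.cons_prefix_cons.2 ⟨rfl, h2⟩)
      have ih := key_lt_aux t x' y' s (rk (inv l)) (rk_inv_le l) h2
      rw [ih]
    · have h1 : pos (4 * g) c (rk l) ≠ pos (4 * g) c (rk m) := fun h2 =>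
        hlm (rk_injective (pos_inj (rk_lt l).le (rk_lt m).le h2 hc))
      rw [or_iff_left fun h => h1 h.1, or_iff_left fun h => h1 h.1]

theorem keyAux_append (c : ℕ) (p s : List (Ltr g)) :
    keyAux c (p ++ s) = kp c p ++ keyAux (lastc c p) s := by
  induction p generalizing c with
  | nil => rfl
  | cons l t ih =>
    show pos (4 * g) c (rk l) :: keyAux (rk (inv l)) (t ++ s) =
      pos (4 * g) c (rk l) :: (kp (rk (inv l)) t ++ keyAux (lastc (rk (inv l)) t) s)
    rw [ih]

theorem keyAux_prefix {c : ℕ} (hc : c ≤ 4 * g) {u v : List (Ltr g)}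
    (h : keyAux c u <+: keyAux c v) : u = v := by
  induction u generalizing c v with
  | nil =>
    cases v with
    | nil => rfl
    | cons m s =>
      simp only [keyAux] at h
      have h1 := pos_inj le_rfl (rk_lt m).le (List.cons_prefix_cons.1 h).1 hc
      have h2 := rk_lt m
      omega
  | cons l t ih =>
    cases v with
    | nil =>
      simp only [keyAux] at h
      have h1 := pos_inj (rk_lt l).le le_rfl (List.cons_prefix_cons.1 h).1 hc
      have h2 := rk_lt l
      omega
    | cons m s =>
      simp only [keyAux] at h
      have h3 := List.cons_prefix_cons.1 h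
      have h1 := rk_injective (pos_inj (rk_lt l).le (rk_lt m).le h3.1 hc)
      subst h1
      rw [ih (rk_inv_le l) h3.2]

theorem key_one : key (1 : F g) = [0] := by
  unfold key
  rw [FreeGroup.toWord_one]
  show [pos (4 * g) (4 * g) (4 * g)] = [0]
  unfold pos
  rw [if_pos le_rfl, Nat.sub_self]

theorem length_key (x : F g) : (key x).length = x.toWord.length + 1 := by
  exact key_length_aux _ _

theorem one_le (x : F g) : 1 ≤ x := by
  rw [le_iff, key_one]
  unfold key
  rcases hw : x.toWord with _ | ⟨l, t⟩
  · show [0] ≤ [pos (4 * g) (4 * g) (4 * g)]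
    unfold pos
    rw [if_pos le_rfl, Nat.sub_self]
  · apply le_of_lt
    show [0] < pos (4 * g) (4 * g) (rk l) :: keyAux (rk (inv l)) t
    rw [List.cons_lt_cons_iff]
    left
    have h := rk_lt l
    unfold pos
    rw [if_neg (by omega)]
    omega

theorem one_lt {x : F g} (hx : x ≠ 1) : 1 < x := lt_of_le_of_ne (one_le x) (Ne.symm hx)

theorem lt_iff_of_prefix {x y z : F g} {p : List (Ltr g)} (hx : p <+: x.toWord)
    (hy : p <+: y.toWord) (hz : ¬ p <+: z.toWord) : x < z ↔ y < z := by
  obtain ⟨x', hx'⟩ := hx
  obtain ⟨y', hy'⟩ := hy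
  rw [lt_iff, lt_iff]
  unfold key
  rw [← hx', ← hy']
  exact key_lt_aux p x' y' _ _ le_rfl hz

theorem le_iff_of_take {x y v : F g} {p : List (Ltr g)} (hx : p <+: x.toWord)
    (hy : p <+: y.toWord) (hp : v.toWord.length < p.length) : x ≤ v ↔ y ≤ v := by
  have hxv : x ≠ v := by
    rintro rfl
    exact absurd hx.length_le (not_le.2 hp)
  have hyv : y ≠ v := by
    rintro rfl
    exact absurd hy.length_le (not_le.2 hp)
  have hpv : ¬ p <+: v.toWord := fun h => absurd h.length_le (not_le.2 hp)
  rw [le_iff_lt_or_eq, le_iff_lt_or_eq, or_iff_left hxv, or_iff_left hyv]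
  exact lt_iff_of_prefix hx hy hpv

end TorM
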