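import Pool.Agent.Lib.MP_05cdf2_gt.M.Key

/-! MP_05cdf2_gt, stream M, job Rot: the cyclic order is left invariant.

`rot_aux` (cut and rotate): if `P` is an initial segment for the first order and a final segment for the second
order, and both orders agree inside `P` and inside its complement, then the cyclic orders agree. Unfold `Cyc`
and `grind` / case distinctions on `P x, P y, P z`.

`cyc_letter`: apply `rot_aux` with `f₁ u = u`, `f₂ u = l⁻¹ * u` (`l⁻¹ = mk [inv l]`) and the following `P`. Let
`N = 4g`, `c = rk l`, `c' = rk (inv l)`, and for a word `w` let `item w = rk (first letter)`, or `N` (the hair) for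
the empty word. If the word of `u` is `l :: w'` then the word of `l⁻¹ u` is `w'`, with
`key u = (c + 1) :: keyAux c' w'`, `key (l⁻¹ u) = keyAux N w'`. Otherwise the word of `l⁻¹ u` is `inv l :: w`, with
`key u = keyAux N w`, `key (l⁻¹ u) = (c' + 1) :: keyAux c w`.
`P u` := in the first case `c' < item w' < N`; in the second case `item w = N` or `item w < c`.
Positions: in the first order one meets, counterclockwise: [hair and items `< c` of the second kind] (P),
[first kind with `c' < item < N`] (P), [first kind with item = N or item < c'] (not P), [second kind with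
`c < item < N`] (not P). In the second order: [first kind, item = N or `< c'`], [second kind, `c < item < N`],
[second kind, item = N or `< c`], [first kind, `c' < item < N`]. Inside each of the four blocks the comparison is
by the item (monotone in both orders: `pos N N i` and `pos N c' i`, resp. `pos N c i`, are increasing in the block, with
the hair before `0, 1, ..`) and, if the items agree, by the same tails `keyAux _ _`.
Note that the first letter of `w'` is not `inv l` and in the second case the first letter of `w` is not `l`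
(reducedness: `FreeGroup.isReduced_toWord`, or `FreeGroup.reduce` of `mk [inv l] * u`).

`cyc_mul`: induction on the word of `a` (`FreeGroup.induction_on` or lists), `cyc_letter`.
-/

set_option autoImplicit false

namespace TorM

theorem rot_aux {ι α β : Type} [LinearOrder α] [LinearOrder β] (f₁ : ι → α) (f₂ : ι → β)
    (P : ι → Prop) (h₁ : ∀ u v, P u → ¬ P v → f₁ u < f₁ v ∧ f₂ v < f₂ u)
    (h₂ : ∀ u v, (P u ↔ P v) → (f₁ u < f₁ v ↔ f₂ u < f₂ v)) (x y z : ι) :
    Cyc (f₁ x) (f₁ y) (f₁ z) ↔ Cyc (f₂ x) (f₂ y) (f₂ z) := by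
  have a1 := h₁ x y
  have a2 := h₁ y x
  have a3 := h₁ x z
  have a4 := h₁ z x
  have a5 := h₁ y z
  have a6 := h₁ z y
  have b1 := h₂ x y
  have b2 := h₂ y x
  have b3 := h₂ x z
  have b4 := h₂ z x
  have b5 := h₂ y z
  have b6 := h₂ z y
  clear h₁ h₂
  unfold Cyc
  by_cases hx : P x <;> by_cases hy : P y <;> by_cases hz : P z <;> simp only [hx, hy, hz, forall_true_left, not_true_eq_false, false_implies, not_false_eq_true, iff_self, iff_false, iff_true] at a1 a2 a3 a4 a5 a6 b1 b2 b3 b4 b5 b6 <;> grind

variable {g : ℕ}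

theorem rot_pos_lt {g : ℕ} (l : Ltr g) : pos (4 * g) (4 * g) (rk l) = rk l + 1 := by
  have h := rk_lt l
  unfold pos
  rw [if_neg (by omega)]
  omega

theorem rot_pos_a {N c i : ℕ} (hc : c < N) (hi : i ≤ N) (hne : i ≠ c) :
    (c < i ∧ pos N c i + c = i) ∨ (i < c ∧ pos N c i + c = i + N + 1) := by
  unfold pos
  split_ifs <;> omega

theorem rot_pos_b {N i : ℕ} (hi : i ≤ N) :
    (i = N ∧ pos N N i = 0) ∨ (i < N ∧ pos N N i = i + 1) := by
  unfold pos
  split_ifs <;> omega

theorem rot_data (l : Ltr g) (u : F g) :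
    (∃ i t, i ≤ 4 * g ∧ i ≠ rk (inv l) ∧ key u = (rk l + 1) :: pos (4 * g) (rk (inv l)) i :: t ∧
      key (FreeGroup.mk [inv l] * u) = pos (4 * g) (4 * g) i :: t) ∨
    (∃ i t, i ≤ 4 * g ∧ i ≠ rk l ∧ key u = pos (4 * g) (4 * g) i :: t ∧
      key (FreeGroup.mk [inv l] * u) = (rk (inv l) + 1) :: pos (4 * g) (rk l) i :: t) := by
  have hw : (FreeGroup.mk [inv l] * u).toWord = FreeGroup.reduce (inv l :: u.toWord) := by
    conv_lhs => rw [← FreeGroup.mk_toWord (x := u)]
    rw [FreeGroup.mul_mk, FreeGroup.toWord_mk]
    rfl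
  have hr : FreeGroup.reduce u.toWord = u.toWord := FreeGroup.reduce_toWord u
  have hred := FreeGroup.isReduced_toWord (x := u)
  unfold key
  rw [hw, FreeGroup.reduce.cons, hr]
  rcases h : u.toWord with _ | ⟨hd, tl⟩
  · right
    refine ⟨4 * g, [], le_rfl, (rk_lt l).ne', rfl, ?_⟩
    show keyAux (4 * g) [inv l] = _
    simp only [keyAux, rot_pos_lt, inv_inv]
  · by_cases hl : hd = l
    · left
      subst hl
      rw [h] at hred
      have h3 : (if (inv hd).1 = hd.1 ∧ (inv hd).2 = !hd.2 then tl else inv hd :: hd :: tl) = tl := by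
        rw [if_pos]
        exact ⟨rfl, rfl⟩
      show ∃ i t, i ≤ 4 * g ∧ i ≠ rk (inv hd) ∧ _ ∧ keyAux (4 * g) (if (inv hd).1 = hd.1 ∧ (inv hd).2 = !hd.2 then tl else inv hd :: hd :: tl) = _
      rw [h3]
      rcases tl with _ | ⟨a, tl⟩
      · refine ⟨4 * g, [], le_rfl, (rk_lt _).ne', ?_, rfl⟩
        simp only [keyAux, rot_pos_lt]
      · refine ⟨rk a, keyAux (rk (inv a)) tl, (rk_lt a).le, ?_, ?_, rfl⟩
        · intro h4
          have h5 : a = inv hd := rk_injective h4
          subst h5
          have h6 := (FreeGroup.isReduced_cons_cons.1 hred).1 rfl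
          have h7 : hd.2 = !hd.2 := h6
          revert h7
          cases hd.2 <;> simp
        · simp only [keyAux, rot_pos_lt]
    · right
      have h3 : (if (inv l).1 = hd.1 ∧ (inv l).2 = !hd.2 then tl else inv l :: hd :: tl) =
          inv l :: hd :: tl := by
        rw [if_neg]
        rintro ⟨h1, h2⟩
        apply hl
        refine Prod.ext h1.symm ?_
        have h4 : (!l.2) = !hd.2 := h2
        have h5 := congrArg Bool.not h4
        simp only [Bool.not_not] at h5
        exact h5.symm
      show ∃ i t, i ≤ 4 * g ∧ i ≠ rk l ∧ _ ∧ keyAux (4 * g) (if (inv l).1 = hd.1 ∧ (inv l).2 = !hd.2 then tl else inv l :: hd :: tl) = _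
      rw [h3]
      refine ⟨rk hd, keyAux (rk (inv hd)) tl, (rk_lt hd).le, fun h4 => hl (rk_injective h4), rfl, ?_⟩
      simp only [keyAux, rot_pos_lt, inv_inv]

theorem cyc_letter (l : Ltr g) (x y z : F g) :
    Cyc (FreeGroup.mk [l] * x) (FreeGroup.mk [l] * y) (FreeGroup.mk [l] * z) ↔ Cyc x y z := by
  have hinv : ∀ u : F g, FreeGroup.mk [inv l] * (FreeGroup.mk [l] * u) = u := by
    intro u
    have h1 : FreeGroup.mk [inv l] = (FreeGroup.mk [l])⁻¹ := by
      rw [FreeGroup.inv_mk]
      rfl
    rw [h1, inv_mul_cancel_left]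
  have hc := rk_lt l
  have hc' := rk_lt (inv l)
  have key2 := rot_aux (fun u : F g => u) (fun u : F g => FreeGroup.mk [inv l] * u)
    (fun u => key u < [rk l + 1, 4 * g - rk (inv l)]) ?_ ?_
    (FreeGroup.mk [l] * x) (FreeGroup.mk [l] * y) (FreeGroup.mk [l] * z)
  · simp only [hinv] at key2
    exact key2
  · intro u v hu hv
    simp only [lt_iff]
    rcases rot_data l u with ⟨i, t, h1, h2, h3, h4⟩ | ⟨i, t, h1, h2, h3, h4⟩
    · rcases rot_data l v with ⟨j, s, k1, k2, k3, k4⟩ | ⟨j, s, k1, k2, k3, k4⟩
      · rw [h3] at hu; rw [k3] at hv; rw [h3, h4, k3, k4]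
        simp only [List.cons_lt_cons_iff, List.not_lt_nil, and_false, or_false, lt_irrefl, true_and,
          false_or] at hu hv ⊢
        have e1 := rot_pos_a hc' h1 h2
        have e2 := rot_pos_b h1
        have e3 := rot_pos_a hc' k1 k2
        have e4 := rot_pos_b k1
        refine ⟨Or.inl ?_, Or.inl ?_⟩ <;> omega
      · rw [h3] at hu; rw [k3] at hv; rw [h3, h4, k3, k4]
        simp only [List.cons_lt_cons_iff, List.not_lt_nil, and_false, or_false, lt_irrefl, true_and,
          false_or] at hu hv ⊢
        have e1 := rot_pos_a hc' h1 h2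
        have e2 := rot_pos_b h1
        have e3 := rot_pos_a hc k1 k2
        have e4 := rot_pos_b k1
        have hv' : ¬ (pos (4 * g) (4 * g) j < rk l + 1) := fun h => hv (Or.inl h)
        refine ⟨Or.inl ?_, Or.inl ?_⟩ <;> omega
    · rcases rot_data l v with ⟨j, s, k1, k2, k3, k4⟩ | ⟨j, s, k1, k2, k3, k4⟩
      · rw [h3] at hu; rw [k3] at hv; rw [h3, h4, k3, k4]
        simp only [List.cons_lt_cons_iff, List.not_lt_nil, and_false, or_false, lt_irrefl, true_and,
          false_or] at hu hv ⊢
        have e1 := rot_pos_a hc h1 h2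
        have e2 := rot_pos_b h1
        have e3 := rot_pos_a hc' k1 k2
        have e4 := rot_pos_b k1
        have hu' : pos (4 * g) (4 * g) i < rk l + 1 := by
          rcases hu with hu | ⟨hu, _⟩ <;> omega
        refine ⟨Or.inl ?_, Or.inl ?_⟩ <;> omega
      · rw [h3] at hu; rw [k3] at hv; rw [h3, h4, k3, k4]
        simp only [List.cons_lt_cons_iff, List.not_lt_nil, and_false, or_false, lt_irrefl, true_and,
          false_or] at hu hv ⊢
        have e1 := rot_pos_a hc h1 h2
        have e2 := rot_pos_b h1
        have e3 := rot_pos_a hc k1 k2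
        have e4 := rot_pos_b k1
        have hu' : pos (4 * g) (4 * g) i < rk l + 1 := by
          rcases hu with hu | ⟨hu, _⟩ <;> omega
        have hv' : ¬ (pos (4 * g) (4 * g) j < rk l + 1) := fun h => hv (Or.inl h)
        refine ⟨Or.inl ?_, Or.inl ?_⟩ <;> omega
  · intro u v huv
    simp only [lt_iff]
    rcases rot_data l u with ⟨i, t, h1, h2, h3, h4⟩ | ⟨i, t, h1, h2, h3, h4⟩
    · rcases rot_data l v with ⟨j, s, k1, k2, k3, k4⟩ | ⟨j, s, k1, k2, k3, k4⟩
      · rw [h3, k3] at huv; rw [h3, h4, k3, k4]
        simp only [List.cons_lt_cons_iff, List.not_lt_nil, and_false, or_false, lt_irrefl, true_and,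
          false_or] at huv ⊢
        have e1 := rot_pos_a hc' h1 h2
        have e2 := rot_pos_b h1
        have e3 := rot_pos_a hc' k1 k2
        have e4 := rot_pos_b k1
        by_cases hq : t < s <;> simp only [hq, and_true, and_false, or_false] <;> omega
      · rw [h3, k3] at huv; rw [h3, h4, k3, k4]
        simp only [List.cons_lt_cons_iff, List.not_lt_nil, and_false, or_false, lt_irrefl, true_and,
          false_or] at huv ⊢
        have e1 := rot_pos_a hc' h1 h2
        have e2 := rot_pos_b h1
        have e3 := rot_pos_a hc k1 k2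
        have e4 := rot_pos_b k1
        have hz : pos (4 * g) (4 * g) j ≠ rk l + 1 := by omega
        simp only [hz, hz.symm, false_and, or_false] at huv ⊢
        omega
    · rcases rot_data l v with ⟨j, s, k1, k2, k3, k4⟩ | ⟨j, s, k1, k2, k3, k4⟩
      · rw [h3, k3] at huv; rw [h3, h4, k3, k4]
        simp only [List.cons_lt_cons_iff, List.not_lt_nil, and_false, or_false, lt_irrefl, true_and,
          false_or] at huv ⊢
        have e1 := rot_pos_a hc h1 h2
        have e2 := rot_pos_b h1
        have e3 := rot_pos_a hc' k1 k2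
        have e4 := rot_pos_b k1
        have hz : pos (4 * g) (4 * g) i ≠ rk l + 1 := by omega
        have hz2 : pos (4 * g) (4 * g) j ≠ rk (inv l) + 1 := by omega
        simp only [hz, hz2.symm, false_and, or_false] at huv ⊢
        omega
      · rw [h3, k3] at huv; rw [h3, h4, k3, k4]
        simp only [List.cons_lt_cons_iff, List.not_lt_nil, and_false, or_false, lt_irrefl, true_and,
          false_or] at huv ⊢
        have e1 := rot_pos_a hc h1 h2
        have e2 := rot_pos_b h1
        have e3 := rot_pos_a hc k1 k2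
        have e4 := rot_pos_b k1
        have hz : pos (4 * g) (4 * g) i ≠ rk l + 1 := by omega
        have hz2 : pos (4 * g) (4 * g) j ≠ rk l + 1 := by omega
        simp only [hz, hz2, false_and, or_false] at huv
        by_cases hq : t < s <;> simp only [hq, and_true, and_false, or_false] <;> omega

/-- the cyclic order is left invariant -/
theorem cyc_mul (a x y z : F g) : Cyc (a * x) (a * y) (a * z) ↔ Cyc x y z := by
  have h : ∀ w : List (Ltr g), Cyc (FreeGroup.mk w * x) (FreeGroup.mk w * y) (FreeGroup.mk w * z) ↔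
      Cyc x y z := by
    intro w
    induction w with
    | nil =>
      have h1 : (FreeGroup.mk [] : F g) = 1 := rfl
      rw [h1, one_mul, one_mul, one_mul]
    | cons l w ih =>
      have h1 : (FreeGroup.mk (l :: w) : F g) = FreeGroup.mk [l] * FreeGroup.mk w := by
        rw [FreeGroup.mul_mk]
        rfl
      rw [h1, mul_assoc, mul_assoc, mul_assoc, cyc_letter, ih]
  have h2 := h a.toWord
  rw [FreeGroup.mk_toWord] at h2
  exact h2

theorem cr_mul (a p q r s : F g) : Cr (a * p) (a * q) (a * r) (a * s) ↔ Cr p q r s := by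
  unfold Cr
  rw [cyc_mul, cyc_mul, cyc_mul, cyc_mul]

end TorM
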